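import Pool.Agent.H719.PZ.Fx

/-!
# Artin-Schreier counts
-/

set_option autoImplicit false
set_option linter.unusedSectionVars false

open Polynomial
open scoped Classical

namespace Pool.Agent.H719.PZ

variable {L : Type} [Field L] [CharP L 2] [IsAlgClosed L]

theorem add_self (x : L) : x + x = 0 := CharTwo.add_self_eq_zero x

theorem card_ker_le {N : ℕ} (hN : 0 < N) :
    ((FF L N).filter (fun x => tr 1 N x = 0)).card ≤ 2 ^ (N - 1) := by
  obtain ⟨P, hP0, hdeg, hev⟩ := exists_trPoly L Nat.one_pos hN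
  rw [one_mul] at hdeg
  refine le_trans ?_ hdeg
  apply Polynomial.card_le_degree_of_subset_roots
  intro x hx
  rw [Finset.mem_val, Finset.mem_filter] at hx
  rw [mem_roots hP0, IsRoot.def, hev]
  exact hx.2

theorem tr_sq_add {N : ℕ} {w : L} (hw : w ∈ Fx L N) : tr 1 N (w ^ 2 + w) = 0 := by
  have h1 : tr 1 N (w ^ 2) = tr 1 N w := by
    have h3 : ∑ i ∈ Finset.range (N + 1), w ^ (2 ^ (1 * i)) = tr 1 N w + w := by
      rw [Finset.sum_range_succ, one_mul, mem_Fx.1 hw, tr]
    rw [Finset.sum_range_succ'] at h3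
    have h4 : ∑ i ∈ Finset.range N, w ^ (2 ^ (1 * (i + 1))) = tr 1 N (w ^ 2) := by
      rw [tr]
      refine Finset.sum_congr rfl fun i _ => ?_
      rw [← pow_mul, one_mul, one_mul, pow_succ']
    rw [h4] at h3
    simpa using h3
  rw [tr_add, h1, add_self]

/-- the Artin-Schreier map -/
theorem as_fiber {w v : L} (h : w ^ 2 + w = v ^ 2 + v) : v = w ∨ v = w + 1 := by
  have h1 : (v - w) * (v - (w + 1)) = 0 := by
    have h2 : (2 : L) = 0 := CharTwo.two_eq_zero
    linear_combination (-1 : L) * h + (w * w + w - v * w - v) * h2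
  rcases mul_eq_zero.1 h1 with h2 | h2
  · exact Or.inl (sub_eq_zero.1 h2)
  · exact Or.inr (sub_eq_zero.1 h2)

theorem as_image {N : ℕ} (hN : 0 < N) :
    (FF L N).image (fun w => w ^ 2 + w) = (FF L N).filter (fun x => tr 1 N x = 0) := by
  apply Finset.eq_of_subset_of_card_le
  · intro x hx
    rw [Finset.mem_image] at hx
    obtain ⟨w, hw, rfl⟩ := hx
    rw [Finset.mem_filter]
    have hw' := (mem_FF hN).1 hw
    exact ⟨(mem_FF hN).2 (add_mem (pow_mem hw' 2) hw'), tr_sq_add hw'⟩
  · refine le_trans (card_ker_le hN) ?_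
    have h1 : (FF L N).card ≤ 2 * ((FF L N).image (fun w => w ^ 2 + w)).card := by
      apply Finset.card_le_mul_card_image
      intro x hx
      rw [Finset.mem_image] at hx
      obtain ⟨w, hw, rfl⟩ := hx
      have h2 : (FF L N).filter (fun v => v ^ 2 + v = w ^ 2 + w) ⊆ {w, w + 1} := by
        intro v hv
        rw [Finset.mem_filter] at hv
        rw [Finset.mem_insert, Finset.mem_singleton]
        exact as_fiber hv.2.symm
      exact (Finset.card_le_card h2).trans Finset.card_le_two
    rw [card_FF hN] at h1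
    have h3 : 2 ^ N = 2 * 2 ^ (N - 1) := by
      rw [← pow_succ']
      congr 1
      omega
    rw [h3] at h1
    exact Nat.le_of_mul_le_mul_left h1 (by norm_num)

theorem card_ker {N : ℕ} (hN : 0 < N) :
    ((FF L N).filter (fun x => tr 1 N x = 0)).card = 2 ^ (N - 1) := by
  apply le_antisymm (card_ker_le hN)
  rw [← as_image hN]
  have h1 : (FF L N).card ≤ 2 * ((FF L N).image (fun w => w ^ 2 + w)).card := by
    apply Finset.card_le_mul_card_image
    intro x hx
    rw [Finset.mem_image] at hx
    obtain ⟨w, hw, rfl⟩ := hx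
    have h2 : (FF L N).filter (fun v => v ^ 2 + v = w ^ 2 + w) ⊆ {w, w + 1} := by
      intro v hv
      rw [Finset.mem_filter] at hv
      rw [Finset.mem_insert, Finset.mem_singleton]
      exact as_fiber hv.2.symm
    exact (Finset.card_le_card h2).trans Finset.card_le_two
  rw [card_FF hN] at h1
  have h3 : 2 ^ N = 2 * 2 ^ (N - 1) := by
    rw [← pow_succ']
    congr 1
    omega
  rw [h3] at h1
  exact Nat.le_of_mul_le_mul_left h1 (by norm_num)

theorem card_w {N : ℕ} (hN : 0 < N) {α : L} (hα : α ∈ Fx L N) :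
    ((FF L N).filter (fun w => w ^ 2 + w = α)).card = if tr 1 N α = 0 then 2 else 0 := by
  split_ifs with h
  · have h1 : α ∈ (FF L N).image (fun w => w ^ 2 + w) := by
      rw [as_image hN, Finset.mem_filter]
      exact ⟨(mem_FF hN).2 hα, h⟩
    rw [Finset.mem_image] at h1
    obtain ⟨w, hw, rfl⟩ := h1
    have hw' := (mem_FF hN).1 hw
    have h2 : (FF L N).filter (fun v => v ^ 2 + v = w ^ 2 + w) = {w, w + 1} := by
      ext v
      rw [Finset.mem_filter, Finset.mem_insert, Finset.mem_singleton]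
      constructor
      · intro hv
        exact as_fiber hv.2.symm
      · rintro (rfl | rfl)
        · exact ⟨hw, rfl⟩
        · refine ⟨(mem_FF hN).2 (add_mem hw' (one_mem _)), ?_⟩
          have h2 : (2 : L) = 0 := CharTwo.two_eq_zero
          linear_combination (w + 1) * h2
    rw [h2, Finset.card_pair]
    intro h3
    have : (1 : L) = 0 := by linear_combination -h3
    exact one_ne_zero this
  · rw [Finset.card_eq_zero, Finset.filter_eq_empty_iff]
    intro w hw hw2
    exact h (by rw [← hw2]; exact tr_sq_add ((mem_FF hN).1 hw))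

theorem card_x {M : ℕ} (hM : 0 < M) {δ : L} (hδ : δ ∈ Fx L M) :
    ((FF L M).filter (fun x => tr 1 M (x * δ) = 0)).card = if δ = 0 then 2 ^ M else 2 ^ (M - 1) := by
  split_ifs with h
  · rw [h, Finset.filter_true_of_mem, card_FF hM]
    intro x _
    rw [mul_zero, tr_zero]
  · rw [← card_ker (L := L) hM]
    apply Finset.card_bij' (fun x _ => x * δ) (fun x _ => x / δ)
    · intro x hx
      rw [Finset.mem_filter] at hx ⊢
      exact ⟨(mem_FF hM).2 (mul_mem ((mem_FF hM).1 hx.1) hδ), hx.2⟩
    · intro x hx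
      rw [Finset.mem_filter] at hx ⊢
      refine ⟨(mem_FF hM).2 (div_mem ((mem_FF hM).1 hx.1) hδ), ?_⟩
      rw [div_mul_cancel₀ _ h]
      exact hx.2
    · intro x _
      exact mul_div_cancel_right₀ x h
    · intro x _
      exact div_mul_cancel₀ x h

theorem sum_w {M e : ℕ} (hM : 0 < M) (he : 0 < e) {u : L} (hu : u ∈ Fx L (M * e)) :
    ∑ x ∈ FF L M, ((FF L (M * e)).filter (fun w => w ^ 2 + w = x * u)).card
      = 2 ^ M + if tr M e u = 0 then 2 ^ M else 0 := by
  have hN : 0 < M * e := Nat.mul_pos hM he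
  have h1 : ∑ x ∈ FF L M, ((FF L (M * e)).filter (fun w => w ^ 2 + w = x * u)).card
      = ∑ x ∈ FF L M, if tr 1 M (x * tr M e u) = 0 then 2 else 0 := by
    refine Finset.sum_congr rfl fun x hx => ?_
    have hx' := (mem_FF hM).1 hx
    rw [card_w hN (mul_mem (Fx_le_mul M e hx') hu), tr_comp, tr_mul e hx']
  rw [h1, ← Finset.sum_filter, Finset.sum_const, card_x hM (tr_mem hu), smul_eq_mul]
  split_ifs with h
  · ring
  · rw [← pow_succ, add_zero]
    congr 1
    omega

end Pool.Agent.H719.PZ
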