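import Pool.Agent.H719.PZ.AS

/-!
# Counting tuples by rank
-/

set_option autoImplicit false
set_option linter.unusedSectionVars false

open Polynomial
open scoped Classical

namespace Pool.Agent.H719.PZ

variable {L : Type} [Field L] [CharP L 2] [IsAlgClosed L]

/-- tuples with entries in a finite set -/
abbrev Tup (n : ℕ) (F : Finset L) : Finset (Fin n → L) := Fintype.piFinset (fun _ : Fin n => F)

theorem mem_Tup {n : ℕ} {F : Finset L} {t : Fin n → L} : t ∈ Tup n F ↔ ∀ j, t j ∈ F :=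
  Fintype.mem_piFinset

theorem card_Tup (n : ℕ) (F : Finset L) : (Tup n F).card = F.card ^ n := by
  rw [Tup, Fintype.card_piFinset_const]

theorem cons_mem_Tup {n : ℕ} {F : Finset L} {x : L} {t : Fin n → L} :
    (Fin.cons x t : Fin (n + 1) → L) ∈ Tup (n + 1) F ↔ x ∈ F ∧ t ∈ Tup n F := by
  rw [mem_Tup, mem_Tup, Fin.forall_fin_succ, Fin.cons_zero]
  simp only [Fin.cons_succ]

theorem sum_Tup_succ {M : Type*} [AddCommMonoid M] {n : ℕ} (F : Finset L) (g : (Fin (n + 1) → L) → M) :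
    ∑ t ∈ Tup (n + 1) F, g t = ∑ x ∈ F, ∑ t ∈ Tup n F, g (Fin.cons x t) := by
  rw [← Finset.sum_product' (f := fun x t => g (Fin.cons x t))]
  refine Finset.sum_nbij' (fun t => (t 0, Fin.tail t)) (fun p => Fin.cons p.1 p.2) ?_ ?_ ?_ ?_ ?_
  · intro t ht
    rw [Finset.mem_product]
    rw [mem_Tup] at ht
    exact ⟨ht 0, mem_Tup.2 fun j => ht j.succ⟩
  · intro p hp
    rw [Finset.mem_product] at hp
    exact cons_mem_Tup.2 hp
  · intro t _
    exact Fin.cons_self_tail t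
  · intro p _
    simp
  · intro t _
    rw [Fin.cons_self_tail]

/-- the bilinear form -/
def lin {n : ℕ} (t y : Fin n → L) : L := ∑ j, t j * y j

theorem lin_cons {n : ℕ} (x y0 : L) (t y : Fin n → L) :
    lin (Fin.cons x t : Fin (n + 1) → L) (Fin.cons y0 y) = x * y0 + lin t y := by
  simp [lin, Fin.sum_univ_succ]

theorem lin_add {n : ℕ} (t y z : Fin n → L) : lin t (y + z) = lin t y + lin t z := by
  simp [lin, mul_add, Finset.sum_add_distrib]

theorem lin_zero {n : ℕ} (t : Fin n → L) : lin t 0 = 0 := by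
  simp [lin]

theorem lin_smul {n : ℕ} (u : L) (t y : Fin n → L) : lin t (fun j => u * y j) = u * lin t y := by
  simp only [lin, Finset.mul_sum]
  exact Finset.sum_congr rfl fun j _ => by ring

/-- the span -/
noncomputable def Sp {n : ℕ} (m : ℕ) (t : Fin n → L) : Finset L := (Tup n (FF L m)).image (lin t)

theorem mem_Sp {n m : ℕ} {t : Fin n → L} {v : L} :
    v ∈ Sp m t ↔ ∃ κ ∈ Tup n (FF L m), lin t κ = v := by
  rw [Sp, Finset.mem_image]

theorem add_mem_Tup {n m : ℕ} (hm : 0 < m) {y z : Fin n → L} (hy : y ∈ Tup n (FF L m))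
    (hz : z ∈ Tup n (FF L m)) : y + z ∈ Tup n (FF L m) := by
  rw [mem_Tup] at *
  intro j
  exact (mem_FF hm).2 (add_mem ((mem_FF hm).1 (hy j)) ((mem_FF hm).1 (hz j)))

theorem smul_mem_Tup {n m : ℕ} (hm : 0 < m) {u : L} (hu : u ∈ Fx L m) {y : Fin n → L}
    (hy : y ∈ Tup n (FF L m)) : (fun j => u * y j) ∈ Tup n (FF L m) := by
  rw [mem_Tup] at *
  intro j
  exact (mem_FF hm).2 (mul_mem hu ((mem_FF hm).1 (hy j)))

theorem zero_mem_Tup {n m : ℕ} (hm : 0 < m) : (0 : Fin n → L) ∈ Tup n (FF L m) := by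
  rw [mem_Tup]
  intro j
  exact (mem_FF hm).2 (zero_mem _)

theorem Sp_add {n m : ℕ} (hm : 0 < m) {t : Fin n → L} {u v : L} (hu : u ∈ Sp m t) (hv : v ∈ Sp m t) :
    u + v ∈ Sp m t := by
  rw [mem_Sp] at *
  obtain ⟨y, hy, rfl⟩ := hu
  obtain ⟨z, hz, rfl⟩ := hv
  exact ⟨y + z, add_mem_Tup hm hy hz, lin_add _ _ _⟩

theorem Sp_zero {n m : ℕ} (hm : 0 < m) (t : Fin n → L) : (0 : L) ∈ Sp m t :=
  mem_Sp.2 ⟨0, zero_mem_Tup hm, lin_zero t⟩

theorem Sp_smul {n m : ℕ} (hm : 0 < m) {t : Fin n → L} {u v : L} (hu : u ∈ Fx L m) (hv : v ∈ Sp m t) :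
    u * v ∈ Sp m t := by
  rw [mem_Sp] at *
  obtain ⟨y, hy, rfl⟩ := hv
  exact ⟨_, smul_mem_Tup hm hu hy, lin_smul _ _ _⟩

theorem mem_Sp_cons {n m : ℕ} {x : L} {t : Fin n → L} {v : L} :
    v ∈ Sp m (Fin.cons x t : Fin (n + 1) → L) ↔ ∃ κ ∈ FF L m, ∃ s ∈ Sp m t, v = x * κ + s := by
  rw [mem_Sp]
  constructor
  · rintro ⟨κ, hκ, rfl⟩
    rw [← Fin.cons_self_tail κ] at hκ ⊢
    rw [cons_mem_Tup] at hκ
    exact ⟨κ 0, hκ.1, lin t (Fin.tail κ), mem_Sp.2 ⟨_, hκ.2, rfl⟩, lin_cons _ _ _ _⟩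
  · rintro ⟨κ, hκ, s, hs, rfl⟩
    obtain ⟨y, hy, rfl⟩ := mem_Sp.1 hs
    exact ⟨Fin.cons κ y, cons_mem_Tup.2 ⟨hκ, hy⟩, lin_cons _ _ _ _⟩

/-- the rank -/
noncomputable def rk (m : ℕ) : (n : ℕ) → (Fin n → L) → ℕ
  | 0, _ => 0
  | n + 1, t => rk m n (Fin.tail t) + if t 0 ∈ Sp m (Fin.tail t) then 0 else 1

theorem rk_cons {m n : ℕ} (x : L) (t : Fin n → L) :
    rk m (n + 1) (Fin.cons x t) = rk m n t + if x ∈ Sp m t then 0 else 1 := by
  rw [rk, Fin.cons_zero, Fin.tail_cons]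

theorem rk_le {m : ℕ} : ∀ {n : ℕ} (t : Fin n → L), rk m n t ≤ n
  | 0, _ => le_rfl
  | n + 1, t => by
    rw [rk]
    have := rk_le (m := m) (Fin.tail t)
    split_ifs <;> omega

theorem cons_cases {n : ℕ} (t : Fin (n + 1) → L) : ∃ x t', t = Fin.cons x t' :=
  ⟨t 0, Fin.tail t, (Fin.cons_self_tail t).symm⟩

theorem card_Sp {m : ℕ} (hm : 0 < m) : ∀ {n : ℕ} (t : Fin n → L), (Sp m t).card = (2 ^ m) ^ rk m n t
  | 0, t => by
    rw [rk, pow_zero, Finset.card_eq_one]
    refine ⟨0, ?_⟩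
    ext v
    rw [mem_Sp, Finset.mem_singleton]
    constructor
    · rintro ⟨κ, _, rfl⟩
      simp [lin]
    · rintro rfl
      exact ⟨0, zero_mem_Tup hm, lin_zero t⟩
  | n + 1, t => by
    obtain ⟨x, t, rfl⟩ := cons_cases t
    have ih := card_Sp hm t
    rw [rk_cons]
    split_ifs with h
    · rw [add_zero, ← ih]
      congr 1
      ext v
      rw [mem_Sp_cons]
      constructor
      · rintro ⟨κ, hκ, s, hs, rfl⟩
        rw [mul_comm x κ]
        exact Sp_add hm (Sp_smul hm ((mem_FF hm).1 hκ) h) hs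
      · intro hv
        exact ⟨0, (mem_FF hm).2 (zero_mem _), v, hv, by ring⟩
    · have h1 : Sp m (Fin.cons x t : Fin (n + 1) → L)
          = ((FF L m) ×ˢ (Sp m t)).image (fun p => x * p.1 + p.2) := by
        ext v
        rw [mem_Sp_cons, Finset.mem_image]
        constructor
        · rintro ⟨κ, hκ, s, hs, rfl⟩
          exact ⟨(κ, s), Finset.mem_product.2 ⟨hκ, hs⟩, rfl⟩
        · rintro ⟨p, hp, rfl⟩
          rw [Finset.mem_product] at hp
          exact ⟨p.1, hp.1, p.2, hp.2, rfl⟩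
      rw [h1, Finset.card_image_of_injOn, Finset.card_product, card_FF hm, ih, ← pow_succ']
      rintro ⟨κ, s⟩ hp ⟨κ', s'⟩ hp' heq
      rw [Finset.mem_coe, Finset.mem_product] at hp hp'
      dsimp only at hp hp' heq
      have hκ : κ = κ' := by
        by_contra hne
        apply h
        have h2 : x = (κ - κ')⁻¹ * (s + s') := by
          have h3 : κ - κ' ≠ 0 := sub_ne_zero.2 hne
          field_simp
          have h4 : (2 : L) = 0 := CharTwo.two_eq_zero
          linear_combination heq - s * h4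
        rw [h2]
        exact Sp_smul hm (inv_mem (sub_mem ((mem_FF hm).1 hp.1) ((mem_FF hm).1 hp'.1))) (Sp_add hm hp.2 hp'.2)
      subst hκ
      have hs : s = s' := by linear_combination heq
      rw [hs]

/-- the number of solutions -/
noncomputable def cnt {n : ℕ} (m : ℕ) (t : Fin n → L) (v : L) : ℕ :=
  ((Tup n (FF L m)).filter (fun y => lin t y = v)).card

theorem cnt_eq_zero {n m : ℕ} {t : Fin n → L} {v : L} (h : v ∉ Sp m t) : cnt m t v = 0 := by
  rw [cnt, Finset.card_eq_zero, Finset.filter_eq_empty_iff]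
  intro y hy hv
  exact h (mem_Sp.2 ⟨y, hy, hv⟩)

theorem cnt_translate {n m : ℕ} (hm : 0 < m) {t : Fin n → L} {v : L} (h : v ∈ Sp m t) :
    cnt m t v = cnt m t 0 := by
  obtain ⟨z, hz, rfl⟩ := mem_Sp.1 h
  have hzz : z + z = 0 := by
    ext j
    exact add_self (z j)
  apply Finset.card_bij' (fun y _ => y + z) (fun y _ => y + z)
  · intro y hy
    rw [Finset.mem_filter] at hy ⊢
    refine ⟨add_mem_Tup hm hy.1 hz, ?_⟩
    rw [lin_add, hy.2, add_self]
  · intro y hy
    rw [Finset.mem_filter] at hy ⊢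
    refine ⟨add_mem_Tup hm hy.1 hz, ?_⟩
    rw [lin_add, hy.2, zero_add]
  · intro y _
    rw [add_assoc, hzz, add_zero]
  · intro y _
    rw [add_assoc, hzz, add_zero]

theorem cnt_cons {n m : ℕ} (x : L) (t : Fin n → L) (v : L) :
    cnt m (Fin.cons x t : Fin (n + 1) → L) v = ∑ y ∈ FF L m, cnt m t (v + x * y) := by
  rw [cnt, Finset.card_filter, sum_Tup_succ]
  refine Finset.sum_congr rfl fun y _ => ?_
  rw [cnt, Finset.card_filter]
  refine Finset.sum_congr rfl fun z _ => ?_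
  rw [lin_cons]
  have h4 : (2 : L) = 0 := CharTwo.two_eq_zero
  have : x * y + lin t z = v ↔ lin t z = v + x * y := by
    constructor
    · intro h
      linear_combination h - x * y * h4
    · intro h
      linear_combination h + x * y * h4
  simp only [this]

/-- linear disjointness -/
theorem disj {k a b n : ℕ} (hk : 0 < k) (hb : 0 < b) (hab : Nat.Coprime a b)
    {t : Fin n → L} (ht : t ∈ Tup n (FF L (k * a))) (ha : 0 < a) {x : L} (hx : x ∈ Fx L (k * a))
    (h : x ∈ Sp (k * b) t) : x ∈ Sp k t := by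
  have hka : 0 < k * a := Nat.mul_pos hk ha
  have hkb : 0 < k * b := Nat.mul_pos hk hb
  obtain ⟨y, hy, rfl⟩ := mem_Sp.1 h
  obtain ⟨β, hβ, hβ0⟩ := exists_tr_ne (L := L) hk hb
  have hperm : ∀ v ∈ Fx L (k * b), tr (k * a) b v = tr k b v := fun v hv => tr_perm hb hab hv
  rw [mem_Tup] at ht hy
  have h1 : tr (k * a) b (lin t y * β) = lin t y * tr k b β := by
    rw [tr_mul b hx, hperm β hβ]
  have h2 : tr (k * a) b (lin t y * β) = lin t (fun j => tr k b (y j * β)) := by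
    rw [lin, Finset.sum_mul, tr_sum, lin]
    refine Finset.sum_congr rfl fun j _ => ?_
    rw [mul_assoc, tr_mul b ((mem_FF hka).1 (ht j)), hperm _ (mul_mem ((mem_FF hkb).1 (hy j)) hβ)]
  have h3 : lin t y = lin t (fun j => (tr k b β)⁻¹ * tr k b (y j * β)) := by
    rw [lin_smul, ← h2, h1]
    field_simp
  rw [h3]
  refine mem_Sp.2 ⟨_, ?_, rfl⟩
  rw [mem_Tup]
  intro j
  exact (mem_FF hk).2 (mul_mem (inv_mem (tr_mem hβ)) (tr_mem (mul_mem ((mem_FF hkb).1 (hy j)) hβ)))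

theorem Sp_mono {k b n : ℕ} (hk : 0 < k) (hb : 0 < b) {t : Fin n → L} {x : L} (h : x ∈ Sp k t) :
    x ∈ Sp (k * b) t := by
  obtain ⟨y, hy, rfl⟩ := mem_Sp.1 h
  refine mem_Sp.2 ⟨y, ?_, rfl⟩
  rw [mem_Tup] at hy ⊢
  intro j
  exact (mem_FF (Nat.mul_pos hk hb)).2 (Fx_le_mul k b ((mem_FF hk).1 (hy j)))

theorem cnt_zero {k a b : ℕ} (hk : 0 < k) (ha : 0 < a) (hb : 0 < b) (hab : Nat.Coprime a b) :
    ∀ {n : ℕ} {t : Fin n → L}, t ∈ Tup n (FF L (k * a)) →
      cnt (k * b) t 0 = (2 ^ (k * b)) ^ (n - rk k n t)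
  | 0, t, _ => by
    rw [Nat.zero_sub, pow_zero, cnt, Finset.card_eq_one]
    refine ⟨0, ?_⟩
    ext y
    rw [Finset.mem_filter, Finset.mem_singleton]
    constructor
    · intro _
      exact Subsingleton.elim _ _
    · rintro rfl
      exact ⟨zero_mem_Tup (Nat.mul_pos hk hb), lin_zero t⟩
  | n + 1, t, ht => by
    have hkb : 0 < k * b := Nat.mul_pos hk hb
    have hka : 0 < k * a := Nat.mul_pos hk ha
    obtain ⟨x, t, rfl⟩ := cons_cases t
    rw [cons_mem_Tup] at ht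
    have ih := cnt_zero hk ha hb hab ht.2
    have hr := rk_le (m := k) t
    rw [cnt_cons, rk_cons]
    split_ifs with h
    · have h1 : ∀ y ∈ FF L (k * b), cnt (k * b) t (0 + x * y) = (2 ^ (k * b)) ^ (n - rk k n t) := by
        intro y hy
        rw [cnt_translate hkb, ih]
        rw [zero_add, mul_comm x y]
        exact Sp_smul hkb ((mem_FF hkb).1 hy) (Sp_mono hk hb h)
      rw [Finset.sum_congr rfl h1, Finset.sum_const, card_FF hkb, smul_eq_mul, ← pow_succ']
      congr 1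
      omega
    · rw [Finset.sum_eq_single 0]
      · rw [mul_zero, add_zero, ih]
        congr 1
        omega
      · intro y hy hy0
        apply cnt_eq_zero
        intro h2
        apply h
        apply disj hk hb hab ht.2 ha ((mem_FF hka).1 ht.1)
        have h3 : x = y⁻¹ * (0 + x * y) := by
          field_simp
          ring
        rw [h3]
        exact Sp_smul hkb (inv_mem ((mem_FF hkb).1 hy)) h2
      · intro h0
        exact absurd ((mem_FF hkb).2 (zero_mem _)) h0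

/-- the functional recursion -/
def W (Q A : ℤ) : ℕ → (ℕ → ℤ) → ℤ
  | 0, g => g 0
  | n + 1, g => W Q A n (fun r => Q ^ r * g r + (A - Q ^ r) * g (r + 1))

theorem sum_step {k a : ℕ} (hk : 0 < k) (ha : 0 < a) {n : ℕ} {t : Fin n → L}
    (ht : t ∈ Tup n (FF L (k * a))) (u v : ℤ) :
    ∑ x ∈ FF L (k * a), (if x ∈ Sp k t then u else v)
      = (2 ^ k) ^ rk k n t * u + ((2 ^ (k * a) : ℤ) - (2 ^ k) ^ rk k n t) * v := by
  have hka : 0 < k * a := Nat.mul_pos hk ha
  have hsub : Sp k t ⊆ FF L (k * a) := by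
    intro w hw
    obtain ⟨κ, hκ, rfl⟩ := mem_Sp.1 hw
    rw [mem_FF hka, lin]
    apply sum_mem
    intro j _
    exact mul_mem ((mem_FF hka).1 (mem_Tup.1 ht j)) (Fx_le_mul k a ((mem_FF hk).1 (mem_Tup.1 hκ j)))
  rw [← Finset.sum_sdiff hsub]
  have h1 : ∀ x ∈ FF L (k * a) \ Sp k t, (if x ∈ Sp k t then u else v) = v := by
    intro x hx
    rw [Finset.mem_sdiff] at hx
    rw [if_neg hx.2]
  have h2 : ∀ x ∈ Sp k t, (if x ∈ Sp k t then u else v) = u := by
    intro x hx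
    rw [if_pos hx]
  rw [Finset.sum_congr rfl h1, Finset.sum_congr rfl h2, Finset.sum_const, Finset.sum_const,
    nsmul_eq_mul, nsmul_eq_mul, Finset.card_sdiff_of_subset hsub,
    Nat.cast_sub (Finset.card_le_card hsub), card_Sp hk, card_FF hka]
  generalize rk k n t = r
  push_cast
  ring

theorem sum_rk {k a : ℕ} (hk : 0 < k) (ha : 0 < a) (n : ℕ) : ∀ (g : ℕ → ℤ),
    ∑ t ∈ Tup n (FF L (k * a)), g (rk k n t) = W (2 ^ k) (2 ^ (k * a)) n g := by
  induction n with
  | zero =>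
    intro g
    have h1 : Tup 0 (FF L (k * a)) = {0} := by
      ext t
      rw [Finset.mem_singleton, mem_Tup]
      constructor
      · intro _
        exact Subsingleton.elim _ _
      · intro _ j
        exact j.elim0
    rw [h1, Finset.sum_singleton, rk, W]
  | succ n ih =>
    intro g
    rw [W, ← ih, sum_Tup_succ, Finset.sum_comm]
    refine Finset.sum_congr rfl fun t ht => ?_
    rw [← sum_step hk ha ht]
    refine Finset.sum_congr rfl fun x _ => ?_
    rw [rk_cons]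
    split_ifs
    · rw [add_zero]
    · rfl

end Pool.Agent.H719.PZ
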