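import Mathlib

/-!
# Finite subfields of an algebraically closed field of characteristic two, explicit traces
-/

set_option autoImplicit false
set_option linter.unusedSectionVars false

open Polynomial

namespace Pool.Agent.H719.PZ

variable {L : Type} [Field L] [CharP L 2]

/-- the subfield of the `x` with `x ^ (2 ^ n) = x` -/
def Fx (L : Type) [Field L] [CharP L 2] (n : ℕ) : Subfield L :=
  (iterateFrobenius L 2 n).eqLocusField (RingHom.id L)

theorem mem_Fx {n : ℕ} {x : L} : x ∈ Fx L n ↔ x ^ (2 ^ n) = x := by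
  rw [Fx, RingHom.mem_eqLocusField, iterateFrobenius_def, RingHom.id_apply]

theorem Fx_le_mul (m i : ℕ) : Fx L m ≤ Fx L (m * i) := by
  intro x hx
  rw [mem_Fx] at hx ⊢
  induction i with
  | zero => simp
  | succ i ih => rw [Nat.mul_succ, pow_add, pow_mul, ih, hx]

theorem Fx_le_of_dvd {m n : ℕ} (h : m ∣ n) : Fx L m ≤ Fx L n := by
  obtain ⟨i, rfl⟩ := h
  exact Fx_le_mul m i

/-- the sum of the `x ^ (2 ^ (m i))`, `i < e` -/
def tr (m e : ℕ) (x : L) : L := ∑ i ∈ Finset.range e, x ^ (2 ^ (m * i))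

theorem tr_add (m e : ℕ) (x y : L) : tr m e (x + y) = tr m e x + tr m e y := by
  simp only [tr, ← Finset.sum_add_distrib]
  exact Finset.sum_congr rfl fun i _ => add_pow_char_pow x y 2 (m * i)

theorem tr_zero (m e : ℕ) : tr m e (0 : L) = 0 := by
  apply Finset.sum_eq_zero
  intro i _
  exact zero_pow (by positivity)

theorem tr_sum {ι : Type*} (s : Finset ι) (f : ι → L) (m e : ℕ) :
    tr m e (∑ i ∈ s, f i) = ∑ i ∈ s, tr m e (f i) := by
  classical
  induction s using Finset.induction_on with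
  | empty => simp [tr_zero]
  | insert a s ha ih => rw [Finset.sum_insert ha, Finset.sum_insert ha, tr_add, ih]

theorem tr_mul {m : ℕ} (e : ℕ) {u : L} (hu : u ∈ Fx L m) (x : L) : tr m e (u * x) = u * tr m e x := by
  simp only [tr, Finset.mul_sum]
  refine Finset.sum_congr rfl fun i _ => ?_
  rw [mul_pow, mem_Fx.1 (Fx_le_mul m i hu)]

theorem tr_mem {m e : ℕ} {x : L} (hx : x ∈ Fx L (m * e)) : tr m e x ∈ Fx L m := by
  rw [mem_Fx] at hx ⊢
  have h1 : (tr m e x) ^ (2 ^ m) = ∑ i ∈ Finset.range e, x ^ (2 ^ (m * (i + 1))) := by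
    rw [tr, sum_pow_char_pow]
    refine Finset.sum_congr rfl fun i _ => ?_
    rw [← pow_mul, ← pow_add, Nat.mul_succ]
  have h2 : ∑ i ∈ Finset.range (e + 1), x ^ (2 ^ (m * i)) = tr m e x + x := by
    rw [Finset.sum_range_succ, hx, tr]
  rw [Finset.sum_range_succ'] at h2
  rw [h1]
  simpa using h2

theorem tr_comp (m e : ℕ) (x : L) : tr 1 (m * e) x = tr 1 m (tr m e x) := by
  induction e with
  | zero => simp [tr, zero_pow]
  | succ e ih =>
    have h1 : tr m (e + 1) x = tr m e x + x ^ (2 ^ (m * e)) := by rw [tr, tr, Finset.sum_range_succ]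
    have h2 : tr 1 (m * (e + 1)) x = tr 1 (m * e) x + tr 1 m (x ^ (2 ^ (m * e))) := by
      rw [tr, Nat.mul_succ, Finset.sum_range_add, tr, tr]
      congr 1
      refine Finset.sum_congr rfl fun i _ => ?_
      rw [← pow_mul, ← pow_add]
      ring_nf
    rw [h2, ih, h1, tr_add]

theorem pow_mod {m e : ℕ} {v : L} (hv : v ∈ Fx L (m * e)) (j : ℕ) :
    v ^ (2 ^ (m * j)) = v ^ (2 ^ (m * (j % e))) := by
  have h : v ^ (2 ^ (m * e * (j / e))) = v := mem_Fx.1 (Fx_le_mul (m * e) (j / e) hv)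
  have h2 : m * j = m * e * (j / e) + m * (j % e) := by
    have := Nat.div_add_mod j e
    calc m * j = m * (e * (j / e) + j % e) := by rw [this]
      _ = _ := by ring
  rw [h2, pow_add, pow_mul, h]

theorem tr_perm {m e s : ℕ} (he : 0 < e) (hs : Nat.Coprime s e) {v : L} (hv : v ∈ Fx L (m * e)) :
    tr (m * s) e v = tr m e v := by
  classical
  have hinj : Set.InjOn (fun i => s * i % e) (Finset.range e : Set ℕ) := by
    intro i hi j hj h
    rw [Finset.coe_range, Set.mem_Iio] at hi hj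
    have h1 : s * i ≡ s * j [MOD e] := h
    have h2 : i ≡ j [MOD e] := Nat.ModEq.cancel_left_of_coprime (by rwa [Nat.coprime_comm] at hs) h1
    rwa [Nat.ModEq, Nat.mod_eq_of_lt hi, Nat.mod_eq_of_lt hj] at h2
  have himg : (Finset.range e).image (fun i => s * i % e) = Finset.range e := by
    apply Finset.eq_of_subset_of_card_le
    · intro j hj
      rw [Finset.mem_image] at hj
      obtain ⟨i, -, rfl⟩ := hj
      exact Finset.mem_range.2 (Nat.mod_lt _ he)
    · rw [Finset.card_image_of_injOn hinj]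
  rw [tr, tr]
  conv_rhs => rw [← himg]
  rw [Finset.sum_image hinj]
  refine Finset.sum_congr rfl fun i _ => ?_
  rw [mul_assoc, pow_mod hv (s * i)]

variable [IsAlgClosed L]

open Classical in
/-- the elements of `Fx n` as a finite set -/
noncomputable def FF (L : Type) [Field L] [CharP L 2] [IsAlgClosed L] (n : ℕ) : Finset L :=
  (X ^ (2 ^ n) - X : L[X]).roots.toFinset

theorem mem_FF {n : ℕ} (hn : 0 < n) {x : L} : x ∈ FF L n ↔ x ∈ Fx L n := by
  classical
  have h2 : 1 < 2 ^ n := Nat.one_lt_two_pow hn.ne'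
  have h : (X ^ (2 ^ n) - X : L[X]) ≠ 0 := FiniteField.X_pow_card_sub_X_ne_zero L h2
  rw [FF, Multiset.mem_toFinset, mem_roots h, IsRoot.def, eval_sub, eval_pow, eval_X, sub_eq_zero, mem_Fx]

theorem card_FF {n : ℕ} (hn : 0 < n) : (FF L n).card = 2 ^ n := by
  classical
  have h2 : 1 < 2 ^ n := Nat.one_lt_two_pow hn.ne'
  have hsep : (X ^ (2 ^ n) - X : L[X]).Separable := galois_poly_separable 2 (2 ^ n) (dvd_pow_self 2 hn.ne')
  have hdeg : (X ^ (2 ^ n) - X : L[X]).natDegree = 2 ^ n := FiniteField.X_pow_card_sub_X_natDegree_eq L h2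
  have hnod : (X ^ (2 ^ n) - X : L[X]).roots.Nodup := nodup_roots hsep
  rw [FF, Multiset.toFinset_card_of_nodup hnod]
  exact (splits_iff_card_roots.1 (IsAlgClosed.splits (X ^ (2 ^ n) - X : L[X]))).trans (by rw [hdeg])

theorem exists_trPoly (L : Type) [Field L] {m e : ℕ} (hm : 0 < m) (he : 0 < e) :
    ∃ P : L[X], P ≠ 0 ∧ P.natDegree ≤ 2 ^ (m * (e - 1)) ∧
      ∀ x : L, P.eval x = ∑ i ∈ Finset.range e, x ^ (2 ^ (m * i)) := by
  obtain ⟨P, hP⟩ : ∃ P : L[X], P = ∑ i ∈ Finset.range e, X ^ (2 ^ (m * i)) := ⟨_, rfl⟩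
  have hev : ∀ x : L, P.eval x = ∑ i ∈ Finset.range e, x ^ (2 ^ (m * i)) := by
    intro x
    rw [hP, eval_finsetSum]
    exact Finset.sum_congr rfl fun i _ => by rw [eval_pow, eval_X]
  have hdeg : P.natDegree ≤ 2 ^ (m * (e - 1)) := by
    rw [hP]
    refine natDegree_sum_le_of_forall_le _ _ fun i hi => ?_
    rw [natDegree_X_pow]
    have := Finset.mem_range.1 hi
    exact Nat.pow_le_pow_right (by norm_num) (Nat.mul_le_mul_left m (by omega))
  have hcoef : P.coeff 1 = 1 := by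
    rw [hP, finsetSum_coeff, Finset.sum_eq_single 0]
    · simp
    · intro i _ hi
      rw [coeff_X_pow, if_neg]
      have h1 : 0 < m * i := Nat.mul_pos hm (Nat.pos_of_ne_zero hi)
      have h2 : 1 < 2 ^ (m * i) := Nat.one_lt_two_pow h1.ne'
      omega
    · intro h
      exact absurd (Finset.mem_range.2 he) h
  have hP0 : P ≠ 0 := by
    intro h
    rw [h] at hcoef
    simp at hcoef
  exact ⟨P, hP0, hdeg, hev⟩

theorem exists_tr_ne {m e : ℕ} (hm : 0 < m) (he : 0 < e) : ∃ β ∈ Fx L (m * e), tr m e β ≠ 0 := by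
  by_contra hcon
  push Not at hcon
  obtain ⟨P, hP0, hdeg, hev⟩ := exists_trPoly L hm he
  have hme : 0 < m * e := Nat.mul_pos hm he
  apply hP0
  apply Polynomial.eq_zero_of_natDegree_lt_card_of_eval_eq_zero' P (FF L (m * e))
  · intro x hx
    rw [hev]
    exact hcon x ((mem_FF hme).1 hx)
  · rw [card_FF hme]
    refine lt_of_le_of_lt hdeg (Nat.pow_lt_pow_right (by norm_num) ?_)
    exact Nat.mul_lt_mul_of_pos_left (by omega) hm

theorem exists_tr_mul_ne {m e : ℕ} (hm : 0 < m) (he : 0 < e) {z : L} (hz : z ∈ Fx L (m * e)) (h0 : z ≠ 0) :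
    ∃ u ∈ Fx L (m * e), tr m e (u * z) ≠ 0 := by
  obtain ⟨β, hβ, h⟩ := exists_tr_ne (L := L) hm he
  exact ⟨β / z, div_mem hβ hz, by rwa [div_mul_cancel₀ _ h0]⟩

end Pool.Agent.H719.PZ
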