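import Mathlib

/-!
# Power sums determine the multiplicities
-/

set_option autoImplicit false

open Polynomial
open scoped Classical

namespace Pool.Agent.H719.PZ

theorem sum_map_eval (B : Multiset ℂ) (q : ℂ[X]) :
    (B.map (fun b => q.eval b)).sum = ∑ k ∈ Finset.range (q.natDegree + 1), q.coeff k * (B.map (fun b => b ^ k)).sum := by
  induction B using Multiset.induction_on with
  | empty => simp
  | cons x B ih =>
    rw [Multiset.map_cons, Multiset.sum_cons, ih, eval_eq_sum_range, ← Finset.sum_add_distrib]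
    refine Finset.sum_congr rfl fun k _ => ?_
    rw [Multiset.map_cons, Multiset.sum_cons, mul_add]

theorem transfer (P : ℤ[X]) (A B : Multiset ℂ)
    (h : ∀ k : ℕ, 0 < k → ((P.eval (2 ^ k) : ℤ) : ℂ) = (B.map (fun b => b ^ k)).sum - (A.map (fun a => a ^ k)).sum)
    (q : ℂ[X]) (hq : q.coeff 0 = 0) :
    ∑ i ∈ Finset.range (P.natDegree + 1), (P.coeff i : ℂ) * q.eval (2 ^ i)
      = (B.map (fun b => q.eval b)).sum - (A.map (fun a => q.eval a)).sum := by
  rw [sum_map_eval, sum_map_eval, ← Finset.sum_sub_distrib]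
  have h1 : ∀ k ∈ Finset.range (q.natDegree + 1),
      q.coeff k * (B.map (fun b => b ^ k)).sum - q.coeff k * (A.map (fun b => b ^ k)).sum
        = ∑ i ∈ Finset.range (P.natDegree + 1), (P.coeff i : ℂ) * (q.coeff k * (2 ^ i) ^ k) := by
    intro k _
    rcases Nat.eq_zero_or_pos k with rfl | hk
    · simp [hq]
    · rw [← mul_sub, ← h k hk, eval_eq_sum_range]
      push_cast
      rw [Finset.mul_sum]
      refine Finset.sum_congr rfl fun i _ => ?_
      rw [← pow_mul, ← pow_mul, mul_comm k i]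
      ring
  rw [Finset.sum_congr rfl h1, Finset.sum_comm]
  refine Finset.sum_congr rfl fun i _ => ?_
  rw [eval_eq_sum_range, Finset.mul_sum]

theorem sum_map_single (B : Multiset ℂ) (f : ℂ → ℂ) (x : ℂ) (hf : ∀ b ∈ B, b ≠ x → f b = 0) :
    (B.map f).sum = (B.count x : ℂ) * f x := by
  rw [Finset.sum_multiset_map_count, Finset.sum_eq_single x]
  · rw [nsmul_eq_mul]
  · intro b hb hbx
    rw [hf b (Multiset.mem_toFinset.1 hb) hbx, smul_zero]
  · intro hx
    rw [Multiset.mem_toFinset] at hx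
    rw [Multiset.count_eq_zero_of_notMem hx, zero_smul]

theorem coeff_le_count (P : ℤ[X]) (A B : Multiset ℂ)
    (h : ∀ k : ℕ, 0 < k → ((P.eval (2 ^ k) : ℤ) : ℂ) = (B.map (fun b => b ^ k)).sum - (A.map (fun a => a ^ k)).sum)
    (j : ℕ) : P.coeff j ≤ B.count ((2 : ℂ) ^ j) := by
  rcases lt_or_ge P.natDegree j with hj | hj
  · rw [coeff_eq_zero_of_natDegree_lt hj]
    exact Int.natCast_nonneg _
  obtain ⟨T, hT⟩ : ∃ T : Finset ℂ, T = (A.toFinset ∪ B.toFinset ∪
    (Finset.range (P.natDegree + 1)).image (fun i => (2 : ℂ) ^ i)).erase (2 ^ j) := ⟨_, rfl⟩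
  obtain ⟨q, hq⟩ : ∃ q : ℂ[X], q = X * ∏ ρ ∈ T, (X - C ρ) := ⟨_, rfl⟩
  have hq0 : q.coeff 0 = 0 := by rw [hq, coeff_X_mul_zero]
  have hqT : ∀ ρ ∈ T, q.eval ρ = 0 := by
    intro ρ hρ
    rw [hq, eval_mul, eval_prod, Finset.prod_eq_zero hρ, mul_zero]
    rw [eval_sub, eval_X, eval_C, sub_self]
  have hqj : q.eval (2 ^ j) ≠ 0 := by
    rw [hq, eval_mul, eval_prod, eval_X]
    refine mul_ne_zero (pow_ne_zero _ two_ne_zero) (Finset.prod_ne_zero_iff.2 fun ρ hρ => ?_)
    rw [eval_sub, eval_X, eval_C, sub_ne_zero]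
    rw [hT, Finset.mem_erase] at hρ
    exact fun h => hρ.1 h.symm
  have h1 := transfer P A B h q hq0
  rw [sum_map_single B (fun b => q.eval b) (2 ^ j), sum_map_single A (fun b => q.eval b) (2 ^ j),
    Finset.sum_eq_single j] at h1
  · have h2 : (P.coeff j : ℂ) = (B.count ((2 : ℂ) ^ j) : ℂ) - (A.count ((2 : ℂ) ^ j) : ℂ) := by
      apply mul_right_cancel₀ hqj
      rw [h1, sub_mul]
    have h3 : P.coeff j = (B.count ((2 : ℂ) ^ j) : ℤ) - (A.count ((2 : ℂ) ^ j) : ℤ) := by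
      exact_mod_cast h2
    rw [h3]
    have := Int.natCast_nonneg (A.count ((2 : ℂ) ^ j))
    omega
  · intro i hi hij
    rw [hqT, mul_zero]
    rw [hT, Finset.mem_erase]
    refine ⟨?_, Finset.mem_union_right _ (Finset.mem_image_of_mem _ hi)⟩
    intro h2
    apply hij
    have h3 : ((2 ^ i : ℕ) : ℂ) = ((2 ^ j : ℕ) : ℂ) := by
      push_cast
      exact h2
    have h4 : 2 ^ i = 2 ^ j := by exact_mod_cast h3
    exact Nat.pow_right_injective le_rfl h4
  · intro h2
    exact absurd (Finset.mem_range.2 (Nat.lt_succ_of_le hj)) h2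
  · intro b hb hbj
    apply hqT
    rw [hT, Finset.mem_erase]
    exact ⟨hbj, Finset.mem_union_left _ (Finset.mem_union_left _ (Multiset.mem_toFinset.2 hb))⟩
  · intro b hb hbj
    apply hqT
    rw [hT, Finset.mem_erase]
    exact ⟨hbj, Finset.mem_union_left _ (Finset.mem_union_right _ (Multiset.mem_toFinset.2 hb))⟩

theorem sum_count_le (B : Multiset ℂ) (S : Finset ℂ) : ∑ x ∈ S, B.count x ≤ Multiset.card B := by
  rw [← Multiset.sum_count_eq_card (s := S ∪ B.toFinset) (m := B)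
    (fun a ha => Finset.mem_union_right _ (Multiset.mem_toFinset.2 ha))]
  exact Finset.sum_le_sum_of_subset Finset.subset_union_left

theorem sum_coeff_le_card (P : ℤ[X]) (A B : Multiset ℂ)
    (h : ∀ k : ℕ, 0 < k → ((P.eval (2 ^ k) : ℤ) : ℂ) = (B.map (fun b => b ^ k)).sum - (A.map (fun a => a ^ k)).sum)
    (S : Finset ℕ) : ∑ j ∈ S, P.coeff j ≤ (Multiset.card B : ℤ) := by
  have hinj : Function.Injective (fun j : ℕ => (2 : ℂ) ^ j) := by
    intro i j h2
    have h3 : ((2 ^ i : ℕ) : ℂ) = ((2 ^ j : ℕ) : ℂ) := by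
      push_cast
      exact h2
    have h4 : 2 ^ i = 2 ^ j := by exact_mod_cast h3
    exact Nat.pow_right_injective le_rfl h4
  calc ∑ j ∈ S, P.coeff j ≤ ∑ j ∈ S, (B.count ((2 : ℂ) ^ j) : ℤ) :=
        Finset.sum_le_sum fun j _ => coeff_le_count P A B h j
    _ = ((∑ x ∈ S.image (fun j => (2 : ℂ) ^ j), B.count x : ℕ) : ℤ) := by
        rw [Finset.sum_image (fun x _ y _ hxy => hinj hxy)]
        push_cast
        rfl
    _ ≤ _ := by exact_mod_cast sum_count_le B _

end Pool.Agent.H719.PZ
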