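import Pool.Agent.H719.PZ.Count

/-!
# The point count of `w ^ 2 + w = x y z`
-/

set_option autoImplicit false
set_option linter.unusedSectionVars false

open Polynomial
open scoped Classical

namespace Pool.Agent.H719.PZ

variable {L : Type} [Field L] [CharP L 2] [IsAlgClosed L]

theorem exists_basis {k c : ℕ} (hk : 0 < k) (hc : 0 < c) : ∀ (n : ℕ), n ≤ c →
    ∃ γ ∈ Tup n (FF L (k * c)), rk k n γ = n := by
  intro n
  induction n with
  | zero =>
    intro _
    exact ⟨0, zero_mem_Tup (Nat.mul_pos hk hc), rfl⟩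
  | succ n ih =>
    intro hn
    obtain ⟨γ, hγ, hr⟩ := ih (by omega)
    have h1 : (Sp k γ).card < (FF L (k * c)).card := by
      rw [card_Sp hk, card_FF (Nat.mul_pos hk hc), hr, ← pow_mul]
      exact Nat.pow_lt_pow_right (by norm_num) (Nat.mul_lt_mul_of_pos_left (by omega) hk)
    obtain ⟨x, hx, hx2⟩ := Finset.exists_mem_notMem_of_card_lt_card h1
    refine ⟨Fin.cons x γ, cons_mem_Tup.2 ⟨hx, hγ⟩, ?_⟩
    rw [rk_cons, if_neg hx2, hr]

theorem lin_injOn {k b c : ℕ} (hk : 0 < k) (hb : 0 < b) (hc : 0 < c) (hcb : Nat.Coprime c b)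
    {γ : Fin c → L} (hγ : γ ∈ Tup c (FF L (k * c))) (hr : rk k c γ = c) :
    Set.InjOn (lin γ) (Tup c (FF L (k * b)) : Set (Fin c → L)) := by
  have hkb : 0 < k * b := Nat.mul_pos hk hb
  intro y hy z hz h
  rw [Finset.mem_coe] at hy hz
  have h1 := cnt_zero hk hc hb hcb hγ
  rw [hr, Nat.sub_self, pow_zero, cnt] at h1
  have h2 := Finset.card_le_one.1 h1.le (y + z)
    (Finset.mem_filter.2 ⟨add_mem_Tup hkb hy hz, by rw [lin_add, h, add_self]⟩) 0
    (Finset.mem_filter.2 ⟨zero_mem_Tup hkb, lin_zero γ⟩)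
  ext j
  have h3 : y j + z j = 0 := congrFun h2 j
  have h4 := add_self (z j)
  linear_combination h3 - h4

theorem lin_image {k b c : ℕ} (hk : 0 < k) (hb : 0 < b) (hc : 0 < c) (hcb : Nat.Coprime c b)
    {γ : Fin c → L} (hγ : γ ∈ Tup c (FF L (k * c))) (hr : rk k c γ = c) :
    (Tup c (FF L (k * b))).image (lin γ) = FF L (k * b * c) := by
  have hkb : 0 < k * b := Nat.mul_pos hk hb
  have hkc : 0 < k * c := Nat.mul_pos hk hc
  have hkbc : 0 < k * b * c := Nat.mul_pos hkb hc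
  apply Finset.eq_of_subset_of_card_le
  · intro v hv
    rw [Finset.mem_image] at hv
    obtain ⟨y, hy, rfl⟩ := hv
    rw [mem_FF hkbc, lin]
    apply sum_mem
    intro j _
    refine mul_mem (Fx_le_of_dvd ?_ ((mem_FF hkc).1 (mem_Tup.1 hγ j)))
      (Fx_le_mul (k * b) c ((mem_FF hkb).1 (mem_Tup.1 hy j)))
    exact ⟨b, by ring⟩
  · rw [Finset.card_image_of_injOn (lin_injOn hk hb hc hcb hγ hr), card_Tup, card_FF hkb, card_FF hkbc,
      ← pow_mul]

theorem sum_lin {k b c : ℕ} (hk : 0 < k) (hb : 0 < b) (hc : 0 < c) (hcb : Nat.Coprime c b)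
    {γ : Fin c → L} (hγ : γ ∈ Tup c (FF L (k * c))) (hr : rk k c γ = c) (g : L → ℕ) :
    ∑ u ∈ FF L (k * b * c), g u = ∑ y ∈ Tup c (FF L (k * b)), g (lin γ y) := by
  rw [← lin_image hk hb hc hcb hγ hr, Finset.sum_image (lin_injOn hk hb hc hcb hγ hr)]

theorem tr_injOn {k a c : ℕ} (hk : 0 < k) (ha : 0 < a) (hc : 0 < c) (hca : Nat.Coprime c a)
    {γ : Fin c → L} (hγ : γ ∈ Tup c (FF L (k * c))) (hr : rk k c γ = c) :
    Set.InjOn (fun z => (fun j => tr (k * a) c (γ j * z) : Fin c → L)) (FF L (k * a * c) : Set L) := by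
  have hka : 0 < k * a := Nat.mul_pos hk ha
  have hkac : 0 < k * a * c := Nat.mul_pos hka hc
  intro z hz z' hz' h
  rw [Finset.mem_coe, mem_FF hkac] at hz hz'
  by_contra hne
  have h0 : z - z' ≠ 0 := sub_ne_zero.2 hne
  obtain ⟨u, hu, hu2⟩ := exists_tr_mul_ne hka hc (sub_mem hz hz') h0
  apply hu2
  rw [← mem_FF hkac, ← lin_image hk ha hc hca hγ hr, Finset.mem_image] at hu
  obtain ⟨y, hy, rfl⟩ := hu
  rw [lin, Finset.sum_mul, tr_sum]
  apply Finset.sum_eq_zero
  intro j _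
  have h1 : tr (k * a) c (γ j * z) = tr (k * a) c (γ j * z') := congrFun h j
  have h2 : γ j * y j * (z - z') = y j * (γ j * z + γ j * z') := by
    have h4 := add_self (γ j * z')
    linear_combination (-(y j)) * h4
  rw [h2, tr_mul c ((mem_FF hka).1 (mem_Tup.1 hy j)), tr_add, h1, add_self, mul_zero]

theorem tr_image {k a c : ℕ} (hk : 0 < k) (ha : 0 < a) (hc : 0 < c) (hca : Nat.Coprime c a)
    {γ : Fin c → L} (hγ : γ ∈ Tup c (FF L (k * c))) (hr : rk k c γ = c) :
    (FF L (k * a * c)).image (fun z => (fun j => tr (k * a) c (γ j * z) : Fin c → L))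
      = Tup c (FF L (k * a)) := by
  have hka : 0 < k * a := Nat.mul_pos hk ha
  have hkc : 0 < k * c := Nat.mul_pos hk hc
  have hkac : 0 < k * a * c := Nat.mul_pos hka hc
  apply Finset.eq_of_subset_of_card_le
  · intro v hv
    rw [Finset.mem_image] at hv
    obtain ⟨z, hz, rfl⟩ := hv
    rw [mem_Tup]
    intro j
    rw [mem_FF hka]
    apply tr_mem
    refine mul_mem (Fx_le_of_dvd ?_ ((mem_FF hkc).1 (mem_Tup.1 hγ j))) ((mem_FF hkac).1 hz)
    exact ⟨a, by ring⟩
  · rw [Finset.card_image_of_injOn (tr_injOn hk ha hc hca hγ hr), card_Tup, card_FF hka, card_FF hkac,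
      ← pow_mul]

theorem count_yz {k a b c : ℕ} (hk : 0 < k) (ha : 0 < a) (hb : 0 < b) (hc : 0 < c)
    (hab : Nat.Coprime a b) (hbc : Nat.Coprime b c) (hca : Nat.Coprime c a) :
    ∑ z ∈ FF L (k * a * c), ((FF L (k * b * c)).filter (fun y => tr (k * a * b) c (y * z) = 0)).card
      = ∑ t ∈ Tup c (FF L (k * a)), (2 ^ (k * b)) ^ (c - rk k c t) := by
  have hka : 0 < k * a := Nat.mul_pos hk ha
  have hkb : 0 < k * b := Nat.mul_pos hk hb
  have hkc : 0 < k * c := Nat.mul_pos hk hc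
  have hkac : 0 < k * a * c := Nat.mul_pos hka hc
  obtain ⟨γ, hγ, hr⟩ := exists_basis (L := L) hk hc c le_rfl
  have h1 : ∀ z ∈ FF L (k * a * c),
      ((FF L (k * b * c)).filter (fun y => tr (k * a * b) c (y * z) = 0)).card
        = cnt (k * b) (fun j => tr (k * a) c (γ j * z)) 0 := by
    intro z hz
    rw [Finset.card_filter, sum_lin hk hb hc hbc.symm hγ hr, cnt, Finset.card_filter]
    refine Finset.sum_congr rfl fun y hy => ?_
    have h2 : tr (k * a * b) c (lin γ y * z) = lin (fun j => tr (k * a) c (γ j * z)) y := by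
      rw [lin, Finset.sum_mul, tr_sum, lin]
      refine Finset.sum_congr rfl fun j _ => ?_
      have h3 : γ j * y j * z = y j * (γ j * z) := by ring
      have h4 : y j ∈ Fx L (k * a * b) :=
        Fx_le_of_dvd ⟨a, by ring⟩ ((mem_FF hkb).1 (mem_Tup.1 hy j))
      have h5 : γ j * z ∈ Fx L (k * a * c) :=
        mul_mem (Fx_le_of_dvd ⟨a, by ring⟩ ((mem_FF hkc).1 (mem_Tup.1 hγ j))) ((mem_FF hkac).1 hz)
      rw [h3, tr_mul c h4, tr_perm hc hbc h5, mul_comm]
    rw [h2]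
  have h6 : ∀ t ∈ Tup c (FF L (k * a)), (2 ^ (k * b)) ^ (c - rk k c t) = cnt (k * b) t 0 := by
    intro t ht
    exact (cnt_zero hk ha hb hab ht).symm
  rw [Finset.sum_congr rfl h1, Finset.sum_congr rfl h6, ← tr_image hk ha hc hca hγ hr,
    Finset.sum_image (tr_injOn hk ha hc hca hγ hr)]

theorem count_all {k a b c : ℕ} (hk : 0 < k) (ha : 0 < a) (hb : 0 < b) (hc : 0 < c)
    (hab : Nat.Coprime a b) (hbc : Nat.Coprime b c) (hca : Nat.Coprime c a) :
    ((∑ x ∈ FF L (k * a * b), ∑ y ∈ FF L (k * b * c), ∑ z ∈ FF L (k * a * c),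
        ((FF L (k * a * b * c)).filter (fun w => w ^ 2 + w = x * (y * z))).card : ℕ) : ℤ)
      = 2 ^ (k * a * b) * (2 ^ (k * b * c + k * a * c)
          + W (2 ^ k) (2 ^ (k * a)) c (fun r => (2 ^ (k * b)) ^ (c - r))) := by
  have hka : 0 < k * a := Nat.mul_pos hk ha
  have hkb : 0 < k * b := Nat.mul_pos hk hb
  have hkab : 0 < k * a * b := Nat.mul_pos hka hb
  have hkac : 0 < k * a * c := Nat.mul_pos hka hc
  have hkbc : 0 < k * b * c := Nat.mul_pos hkb hc
  have h1 : ∑ x ∈ FF L (k * a * b), ∑ y ∈ FF L (k * b * c), ∑ z ∈ FF L (k * a * c),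
        ((FF L (k * a * b * c)).filter (fun w => w ^ 2 + w = x * (y * z))).card
      = ∑ z ∈ FF L (k * a * c), ∑ y ∈ FF L (k * b * c), ∑ x ∈ FF L (k * a * b),
        ((FF L (k * a * b * c)).filter (fun w => w ^ 2 + w = x * (y * z))).card := by
    rw [Finset.sum_comm]
    rw [Finset.sum_comm (s := FF L (k * a * c))]
    refine Finset.sum_congr rfl fun y _ => ?_
    rw [Finset.sum_comm]
  have h2 : ∀ z ∈ FF L (k * a * c), ∀ y ∈ FF L (k * b * c), ∑ x ∈ FF L (k * a * b),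
        ((FF L (k * a * b * c)).filter (fun w => w ^ 2 + w = x * (y * z))).card
      = 2 ^ (k * a * b) + if tr (k * a * b) c (y * z) = 0 then 2 ^ (k * a * b) else 0 := by
    intro z hz y hy
    apply sum_w hkab hc
    exact mul_mem (Fx_le_of_dvd ⟨a, by ring⟩ ((mem_FF hkbc).1 hy))
      (Fx_le_of_dvd ⟨b, by ring⟩ ((mem_FF hkac).1 hz))
  rw [h1, Finset.sum_congr rfl fun z hz => Finset.sum_congr rfl (h2 z hz)]
  have h3 : ∑ z ∈ FF L (k * a * c), ∑ y ∈ FF L (k * b * c),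
      (2 ^ (k * a * b) + if tr (k * a * b) c (y * z) = 0 then 2 ^ (k * a * b) else 0)
      = 2 ^ (k * a * b) * (2 ^ (k * b * c + k * a * c)
        + ∑ z ∈ FF L (k * a * c), ((FF L (k * b * c)).filter (fun y => tr (k * a * b) c (y * z) = 0)).card) := by
    rw [mul_add, Finset.mul_sum]
    have h4 : 2 ^ (k * a * b) * 2 ^ (k * b * c + k * a * c)
        = ∑ z ∈ FF L (k * a * c), ∑ y ∈ FF L (k * b * c), 2 ^ (k * a * b) := by
      rw [Finset.sum_const, Finset.sum_const, card_FF hkac, card_FF hkbc, smul_eq_mul, smul_eq_mul]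
      ring
    rw [h4, ← Finset.sum_add_distrib]
    refine Finset.sum_congr rfl fun z _ => ?_
    rw [Finset.sum_add_distrib, ← Finset.sum_filter]
    congr 1
    rw [Finset.sum_const, smul_eq_mul, mul_comm]
  rw [h3, count_yz hk ha hb hc hab hbc hca, ← sum_rk (L := L) hk ha]
  push_cast
  ring

end Pool.Agent.H719.PZ
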