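import Mathlib

/-!
# The large coefficients of the counting polynomial
-/

set_option autoImplicit false
set_option linter.unusedSectionVars false

open Polynomial

namespace Pool.Agent.H719.PZ

/-- one step -/
noncomputable def TT (a : ℕ) (g : ℕ → ℤ[X]) : ℕ → ℤ[X] :=
  fun r => X ^ r * g r + (X ^ a - X ^ r) * g (r + 1)

/-- start -/
noncomputable def G0 (b c : ℕ) : ℕ → ℤ[X] := fun r => X ^ (b * (c - r))

theorem step_decomp {a b c : ℕ} (hab : a ≤ b) : ∀ (i : ℕ), i ≤ c → ∀ r, r ≤ c - i →
    ∃ M E : ℤ[X], (TT a)^[i] (G0 b c) r = M + E ∧ X ^ (a * (c - r)) ∣ M ∧ M.eval 1 = 2 ^ i ∧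
      M.natDegree ≤ b * (c - r) + i * c ∧ (i = 0 → E = 0) ∧
      (0 < i → E.natDegree ≤ b * (c - r - 1) + i * c) := by
  intro i
  induction i with
  | zero =>
    intro _ r _
    refine ⟨X ^ (b * (c - r)), 0, ?_, ?_, ?_, ?_, fun _ => rfl, fun h => absurd h (lt_irrefl 0)⟩
    · rw [Function.iterate_zero, id, G0, add_zero]
    · exact pow_dvd_pow _ (Nat.mul_le_mul_right _ hab)
    · simp
    · rw [natDegree_X_pow]
      omega
  | succ i ih =>
    intro hi r hr
    obtain ⟨M, E, h1, h2, h3, h4, h5, h6⟩ := ih (by omega) r (by omega)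
    obtain ⟨M', E', h1', h2', h3', h4', h5', h6'⟩ := ih (by omega) (r + 1) (by omega)
    have hcr : c - r = (c - (r + 1)) + 1 := by omega
    have hrc : r ≤ c := by omega
    refine ⟨X ^ r * M + X ^ a * M', X ^ r * E + (X ^ a - X ^ r) * E' - X ^ r * M', ?_, ?_, ?_, ?_, ?_, ?_⟩
    · rw [Function.iterate_succ_apply', TT, h1, h1']
      ring
    · refine dvd_add (h2.mul_left _) ?_
      rw [hcr, Nat.mul_add, mul_one, pow_add, mul_comm (X ^ (a * (c - (r + 1))))]
      exact mul_dvd_mul_left _ h2'
    · rw [eval_add, eval_mul, eval_mul, h3, h3']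
      simp only [eval_pow, eval_X, one_pow, one_mul]
      ring
    · refine (natDegree_add_le _ _).trans (max_le ?_ ?_)
      · refine (natDegree_mul_le).trans ?_
        rw [natDegree_X_pow]
        have : (i + 1) * c = i * c + c := by ring
        omega
      · refine (natDegree_mul_le).trans ?_
        rw [natDegree_X_pow, hcr]
        have e1 : b * (c - (r + 1) + 1) = b * (c - (r + 1)) + b := by ring
        have : (i + 1) * c = i * c + c := by ring
        omega
    · intro h
      omega
    · intro _
      have hc1 : (i + 1) * c = i * c + c := by ring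
      refine (natDegree_sub_le _ _).trans (max_le ((natDegree_add_le _ _).trans (max_le ?_ ?_)) ?_)
      · rcases Nat.eq_zero_or_pos i with h0 | h0
        · rw [h5 h0, mul_zero, natDegree_zero]
          exact Nat.zero_le _
        · refine (natDegree_mul_le).trans ?_
          rw [natDegree_X_pow]
          have := h6 h0
          omega
      · rcases Nat.eq_zero_or_pos i with h0 | h0
        · rw [h5' h0, mul_zero, natDegree_zero]
          exact Nat.zero_le _
        · refine (natDegree_mul_le).trans ?_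
          have h7 : (X ^ a - X ^ r : ℤ[X]).natDegree ≤ max a r := by
            refine (natDegree_sub_le _ _).trans ?_
            rw [natDegree_X_pow, natDegree_X_pow]
          have h8 := h6' h0
          have h9 : c - r - 1 = (c - (r + 1) - 1) + 1 := by omega
          have e1 : b * (c - r - 1) = b * (c - (r + 1) - 1) + b := by rw [h9]; ring
          rcases le_total a r with h10 | h10
          · rw [max_eq_right h10] at h7
            omega
          · rw [max_eq_left h10] at h7
            omega
      · refine (natDegree_mul_le).trans ?_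
        rw [natDegree_X_pow]
        have h9 : c - r - 1 = c - (r + 1) := by omega
        rw [h9]
        omega

/-- the counting polynomial -/
noncomputable def PP (a b c : ℕ) : ℤ[X] :=
  X ^ (a * b) * (X ^ (b * c + a * c) + (TT a)^[c] (G0 b c) 0)

theorem exists_coeff_sum {a b c : ℕ} (hc : 0 < c) (hab : a ≤ b) (h : b * (c - 1) + c * c < a * c) :
    ∃ S : Finset ℕ, ∑ j ∈ S, (PP a b c).coeff j = 1 + 2 ^ c := by
  obtain ⟨M, E, h1, h2, h3, h4, h5, h6⟩ := step_decomp (a := a) (b := b) (c := c) hab c le_rfl 0 (Nat.zero_le _)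
  rw [Nat.sub_zero] at h2 h4
  have h6 := h6 hc
  rw [Nat.sub_zero] at h6
  obtain ⟨M', hM'⟩ : ∃ M' : ℤ[X], M' = X ^ (a * b) * (X ^ (b * c + a * c) + M) := ⟨_, rfl⟩
  have hP : PP a b c = M' + X ^ (a * b) * E := by
    rw [PP, h1, hM']
    ring
  have hM1 : M'.eval 1 = 1 + 2 ^ c := by
    rw [hM', eval_mul, eval_add, h3]
    simp
  have hdvd : X ^ (a * b + a * c) ∣ M' := by
    rw [hM', pow_add]
    refine mul_dvd_mul_left _ (dvd_add ?_ h2)
    exact pow_dvd_pow _ (Nat.le_add_left _ _)
  have hlow : ∀ j, j < a * b + a * c → M'.coeff j = 0 := X_pow_dvd_iff.1 hdvd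
  have hhigh : ∀ j, a * b + a * c ≤ j → (X ^ (a * b) * E).coeff j = 0 := by
    intro j hj
    apply coeff_eq_zero_of_natDegree_lt
    refine lt_of_le_of_lt natDegree_mul_le ?_
    rw [natDegree_X_pow]
    omega
  refine ⟨(Finset.range (M'.natDegree + 1)).filter (fun j => a * b + a * c ≤ j), ?_⟩
  rw [← hM1, eval_eq_sum_range, Finset.sum_filter]
  refine Finset.sum_congr rfl fun j _ => ?_
  rw [one_pow, mul_one]
  split_ifs with hj
  · rw [hP, coeff_add, hhigh j hj, add_zero]
  · exact (hlow j (not_le.1 hj)).symm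

end Pool.Agent.H719.PZ
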