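import Pool.Agent.H719.PZ.Key
import Pool.Agent.H719.PZ.Poly
import Pool.Agent.H719.PZ.Indep

/-!
# The partial zeta functions of `w ^ 2 + w = x y z` have exponentially many zeros and poles
-/

set_option autoImplicit false
set_option linter.unusedSectionVars false

open Polynomial
open scoped Classical

namespace Pool.Agent.H719.PZ

theorem W_eval (a : ℕ) (Q : ℤ) (n : ℕ) : ∀ g : ℕ → ℤ[X],
    W Q (Q ^ a) n (fun r => (g r).eval Q) = ((TT a)^[n] g 0).eval Q := by
  induction n with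
  | zero =>
    intro g
    rfl
  | succ n ih =>
    intro g
    rw [W, Function.iterate_succ_apply, ← ih]
    congr 1
    funext r
    simp only [TT, eval_add, eval_mul, eval_sub, eval_pow, eval_X]

section

variable {L : Type} [Field L] [CharP L 2] [IsAlgClosed L]

theorem count_eval {k a b c : ℕ} (hk : 0 < k) (ha : 0 < a) (hb : 0 < b) (hc : 0 < c)
    (hab : Nat.Coprime a b) (hbc : Nat.Coprime b c) (hca : Nat.Coprime c a) :
    ((∑ x ∈ FF L (k * a * b), ∑ y ∈ FF L (k * b * c), ∑ z ∈ FF L (k * a * c),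
        ((FF L (k * a * b * c)).filter (fun w => w ^ 2 + w = x * (y * z))).card : ℕ) : ℤ)
      = (PP a b c).eval (2 ^ k) := by
  rw [count_all hk ha hb hc hab hbc hca, PP, eval_mul, eval_add, ← W_eval, eval_pow, eval_pow, eval_X]
  have e1 : (2 : ℤ) ^ (k * a * b) = (2 ^ k) ^ (a * b) := by
    rw [← pow_mul, mul_assoc]
  have e2 : (2 : ℤ) ^ (k * b * c + k * a * c) = (2 ^ k) ^ (b * c + a * c) := by
    rw [← pow_mul, mul_add, mul_assoc, mul_assoc]
  have e3 : (2 : ℤ) ^ (k * a) = (2 ^ k) ^ a := by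
    rw [← pow_mul]
  have e4 : (fun r => ((2 : ℤ) ^ (k * b)) ^ (c - r)) = fun r => (G0 b c r).eval (2 ^ k) := by
    funext r
    rw [G0, eval_pow, eval_X, ← pow_mul, ← pow_mul, mul_assoc]
  rw [e1, e2, e3, e4]

/-- the point set -/
def PS (L : Type) [Field L] (a b c k : ℕ) : Set (Fin 4 → L) :=
  {x | (∀ i, x i ^ ((2 ^ 1) ^ ((![a * b, b * c, a * c, a * b * c] : Fin 4 → ℕ) i * k)) = x i) ∧
    x 3 ^ 2 + x 3 + x 0 * (x 1 * x 2) = 0}

theorem ncard_PS {k a b c : ℕ} (hk : 0 < k) (ha : 0 < a) (hb : 0 < b) (hc : 0 < c) :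
    (PS L a b c k).ncard = ∑ x ∈ FF L (k * a * b), ∑ y ∈ FF L (k * b * c), ∑ z ∈ FF L (k * a * c),
        ((FF L (k * a * b * c)).filter (fun w => w ^ 2 + w = x * (y * z))).card := by
  have hka : 0 < k * a := Nat.mul_pos hk ha
  have hkb : 0 < k * b := Nat.mul_pos hk hb
  have hkab : 0 < k * a * b := Nat.mul_pos hka hb
  have hkac : 0 < k * a * c := Nat.mul_pos hka hc
  have hkbc : 0 < k * b * c := Nat.mul_pos hkb hc
  have hkabc : 0 < k * a * b * c := Nat.mul_pos hkab hc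
  obtain ⟨F, hF⟩ : ∃ F : Finset (L × L × L × L), F = ((FF L (k * a * b)) ×ˢ (FF L (k * b * c)) ×ˢ
    (FF L (k * a * c)) ×ˢ (FF L (k * a * b * c))).filter
      (fun p => p.2.2.2 ^ 2 + p.2.2.2 = p.1 * (p.2.1 * p.2.2.1)) := ⟨_, rfl⟩
  have hset : PS L a b c k = (fun p : L × L × L × L => (![p.1, p.2.1, p.2.2.1, p.2.2.2] : Fin 4 → L)) '' (F : Set _) := by
    have e0 : a * b * k = k * a * b := by ring
    have e1 : b * c * k = k * b * c := by ring
    have e2 : a * c * k = k * a * c := by ring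
    have e3 : a * b * c * k = k * a * b * c := by ring
    ext x
    rw [PS, Set.mem_ofPred_eq, Set.mem_image]
    constructor
    · rintro ⟨h1, h2⟩
      refine ⟨(x 0, x 1, x 2, x 3), ?_, ?_⟩
      · rw [Finset.mem_coe, hF, Finset.mem_filter, Finset.mem_product, Finset.mem_product,
          Finset.mem_product, mem_FF hkab, mem_FF hkbc, mem_FF hkac, mem_FF hkabc, mem_Fx, mem_Fx, mem_Fx, mem_Fx]
        have g0 := h1 0
        have g1 := h1 1
        have g2 := h1 2
        have g3 := h1 3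
        simp only [Matrix.cons_val_zero, Matrix.cons_val_one, Matrix.cons_val, pow_one] at g0 g1 g2 g3
        rw [e0] at g0
        rw [e1] at g1
        rw [e2] at g2
        rw [e3] at g3
        refine ⟨⟨g0, g1, g2, g3⟩, ?_⟩
        have h4 := add_self (x 0 * (x 1 * x 2))
        dsimp only
        linear_combination h2 - h4
      · ext i
        fin_cases i <;> rfl
    · rintro ⟨⟨x0, x1, x2, x3⟩, hp, rfl⟩
      rw [Finset.mem_coe, hF, Finset.mem_filter, Finset.mem_product, Finset.mem_product,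
        Finset.mem_product, mem_FF hkab, mem_FF hkbc, mem_FF hkac, mem_FF hkabc, mem_Fx, mem_Fx, mem_Fx, mem_Fx] at hp
      obtain ⟨⟨g0, g1, g2, g3⟩, h2⟩ := hp
      dsimp only at g0 g1 g2 g3 h2
      refine ⟨?_, ?_⟩
      · intro i
        fin_cases i
        · change x0 ^ ((2 ^ 1) ^ (a * b * k)) = x0
          rw [pow_one, e0, g0]
        · change x1 ^ ((2 ^ 1) ^ (b * c * k)) = x1
          rw [pow_one, e1, g1]
        · change x2 ^ ((2 ^ 1) ^ (a * c * k)) = x2
          rw [pow_one, e2, g2]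
        · change x3 ^ ((2 ^ 1) ^ (a * b * c * k)) = x3
          rw [pow_one, e3, g3]
      · change x3 ^ 2 + x3 + x0 * (x1 * x2) = 0
        rw [h2, add_self]
  have hinj : Function.Injective (fun p : L × L × L × L => (![p.1, p.2.1, p.2.2.1, p.2.2.2] : Fin 4 → L)) := by
    rintro ⟨x0, x1, x2, x3⟩ ⟨y0, y1, y2, y3⟩ h
    have g0 : x0 = y0 := congrFun h 0
    have g1 : x1 = y1 := congrFun h 1
    have g2 : x2 = y2 := congrFun h 2
    have g3 : x3 = y3 := congrFun h 3
    rw [g0, g1, g2, g3]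
  rw [hset, Set.ncard_image_of_injective _ hinj, Set.ncard_coe_finset, hF, Finset.card_filter,
    Finset.sum_product]
  refine Finset.sum_congr rfl fun x _ => ?_
  rw [Finset.sum_product]
  refine Finset.sum_congr rfl fun y _ => ?_
  rw [Finset.sum_product]
  refine Finset.sum_congr rfl fun z _ => ?_
  rw [Finset.card_filter]

end

/-- the polynomial over the prime field -/
noncomputable def f0 : MvPolynomial (Fin 4) (ZMod 2) :=
  MvPolynomial.X 3 ^ 2 + MvPolynomial.X 3 + MvPolynomial.X 0 * (MvPolynomial.X 1 * MvPolynomial.X 2)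

/-- the polynomial -/
noncomputable def ff : MvPolynomial (Fin 4) (AlgebraicClosure (ZMod 2)) :=
  MvPolynomial.map (algebraMap (ZMod 2) (AlgebraicClosure (ZMod 2))) f0

theorem ff_coeff (s : Fin 4 →₀ ℕ) : (ff.coeff s) ^ (2 ^ 1) = ff.coeff s := by
  rw [ff, MvPolynomial.coeff_map, pow_one, ← map_pow, ZMod.pow_card]

theorem ff_eval (x : Fin 4 → AlgebraicClosure (ZMod 2)) :
    MvPolynomial.eval x ff = x 3 ^ 2 + x 3 + x 0 * (x 1 * x 2) := by
  simp [ff, f0]

theorem ff_degree : ff.totalDegree ≤ 3 := by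
  refine (Finset.sup_mono (MvPolynomial.support_map_subset _ _) : ff.totalDegree ≤ f0.totalDegree).trans ?_
  rw [f0]
  refine (MvPolynomial.totalDegree_add _ _).trans (max_le ((MvPolynomial.totalDegree_add _ _).trans (max_le ?_ ?_)) ?_)
  · rw [MvPolynomial.totalDegree_X_pow]
    norm_num
  · rw [MvPolynomial.totalDegree_X]
    norm_num
  · refine (MvPolynomial.totalDegree_mul _ _).trans ?_
    have := MvPolynomial.totalDegree_mul (MvPolynomial.X 1 : MvPolynomial (Fin 4) (ZMod 2)) (MvPolynomial.X 2)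
    rw [MvPolynomial.totalDegree_X, MvPolynomial.totalDegree_X] at this
    rw [MvPolynomial.totalDegree_X]
    omega

theorem growth (C : ℕ) : ∃ c : ℕ, 0 < c ∧ Nat.Coprime 2 c ∧ (C * (12 * c ^ 5)) ^ C < 2 ^ c := by
  have h1 := tendsto_pow_const_div_const_pow_of_one_lt (6 * C) (one_lt_two : (1 : ℝ) < 2)
  have h2 := h1.eventually (gt_mem_nhds (zero_lt_one))
  rw [Filter.eventually_atTop] at h2
  obtain ⟨N, hN⟩ := h2
  obtain ⟨c, hc⟩ : ∃ c, c = 2 * (N + 12 * C) + 1 := ⟨_, rfl⟩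
  refine ⟨c, by omega, ?_, ?_⟩
  · rw [hc]
    simp
  · have h3 := hN c (by omega)
    rw [div_lt_one (by positivity)] at h3
    have h4 : c ^ (6 * C) < 2 ^ c := by exact_mod_cast h3
    refine lt_of_le_of_lt ?_ h4
    rw [pow_mul]
    apply Nat.pow_le_pow_left
    have h5 : C * 12 ≤ c := by omega
    calc C * (12 * c ^ 5) = (C * 12) * c ^ 5 := by ring
      _ ≤ c * c ^ 5 := Nat.mul_le_mul_right _ h5
      _ = c ^ 6 := by ring

theorem main (h : ∀ (n m : ℕ), ∃ C : ℕ, ∀ (p : ℕ) [Fact p.Prime] (r : ℕ), 0 < r →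
    ∀ (d : Fin n → ℕ), (∀ i, 0 < d i) →
    ∀ (f : MvPolynomial (Fin n) (AlgebraicClosure (ZMod p))),
      (∀ s, (f.coeff s) ^ (p ^ r) = f.coeff s) → f.totalDegree ≤ m →
      ∃ A B : Multiset ℂ,
        Multiset.card A + Multiset.card B ≤ (C * Finset.univ.lcm d) ^ C ∧
        ∀ k : ℕ, 0 < k →
          ((Set.ncard {x : Fin n → AlgebraicClosure (ZMod p) |
              (∀ i, x i ^ ((p ^ r) ^ (d i * k)) = x i) ∧ MvPolynomial.eval x f = 0} : ℕ) : ℂ)
            = (B.map (fun b => b ^ k)).sum - (A.map (fun a => a ^ k)).sum) : False := by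
  obtain ⟨C, hC⟩ := h 4 3
  obtain ⟨c, hc, hodd, hbig⟩ := growth C
  obtain ⟨a, hadef⟩ : ∃ a, a = c * (c + 1) + 1 := ⟨_, rfl⟩
  obtain ⟨b, hbdef⟩ : ∃ b, b = c * (c + 1) + 2 := ⟨_, rfl⟩
  have ha : 0 < a := by omega
  have hb : 0 < b := by omega
  have hba : b = a + 1 := by omega
  have hab : Nat.Coprime a b := by
    rw [hba]
    simp
  have hbc : Nat.Coprime b c := by
    rw [hbdef]
    simpa using hodd
  have hca : Nat.Coprime c a := by
    rw [hadef]
    simp
  obtain ⟨A, B, hcard, hsum⟩ := hC 2 1 one_pos ![a * b, b * c, a * c, a * b * c] (by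
    intro i
    fin_cases i
    · exact Nat.mul_pos ha hb
    · exact Nat.mul_pos hb hc
    · exact Nat.mul_pos ha hc
    · exact Nat.mul_pos (Nat.mul_pos ha hb) hc) ff ff_coeff ff_degree
  have hlcm : Finset.univ.lcm (![a * b, b * c, a * c, a * b * c] : Fin 4 → ℕ) ≤ 12 * c ^ 5 := by
    have h1 : Finset.univ.lcm (![a * b, b * c, a * c, a * b * c] : Fin 4 → ℕ) ∣ a * b * c := by
      apply Finset.lcm_dvd
      intro i _
      fin_cases i
      · exact ⟨c, rfl⟩
      · exact ⟨a, by change a * b * c = b * c * a; ring⟩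
      · exact ⟨b, by change a * b * c = a * c * b; ring⟩
      · exact dvd_rfl
    refine (Nat.le_of_dvd (Nat.mul_pos (Nat.mul_pos ha hb) hc) h1).trans ?_
    have h2 : a ≤ 3 * c ^ 2 := by nlinarith
    have h3 : b ≤ 4 * c ^ 2 := by nlinarith
    calc a * b * c ≤ (3 * c ^ 2) * (4 * c ^ 2) * c := Nat.mul_le_mul_right _ (Nat.mul_le_mul h2 h3)
      _ = 12 * c ^ 5 := by ring
  have hk : ∀ k : ℕ, 0 < k → (((PP a b c).eval (2 ^ k) : ℤ) : ℂ)
      = (B.map (fun b => b ^ k)).sum - (A.map (fun a => a ^ k)).sum := by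
    intro k hk
    rw [← hsum k hk, ← count_eval (L := AlgebraicClosure (ZMod 2)) hk ha hb hc hab hbc hca,
      ← ncard_PS hk ha hb hc, Int.cast_natCast, PS]
    simp only [ff_eval]
  obtain ⟨S, hS⟩ := exists_coeff_sum (a := a) (b := b) (c := c) hc (by omega) (by
    obtain ⟨c', rfl⟩ : ∃ c', c = c' + 1 := ⟨c - 1, by omega⟩
    rw [hbdef, hadef, Nat.add_sub_cancel]
    nlinarith)
  have h1 := sum_coeff_le_card (PP a b c) A B hk S
  rw [hS] at h1
  have h2 : (C * Finset.univ.lcm (![a * b, b * c, a * c, a * b * c] : Fin 4 → ℕ)) ^ C < 2 ^ c :=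
    lt_of_le_of_lt (Nat.pow_le_pow_left (Nat.mul_le_mul_left C hlcm) C) hbig
  have h3 : Multiset.card B < 2 ^ c := by omega
  have h4 : (Multiset.card B : ℤ) < 2 ^ c := by exact_mod_cast h3
  omega

end Pool.Agent.H719.PZ
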